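import Pool.Agent.R787.BetaMain

/-!
# Almost every number has a continuum of expansions with prescribed digit frequencies

Let `β > 1` be a real number which is not an integer, with digits `0, 1, …, ⌊β⌋`, and prescribe
upper frequencies `pu` and lower frequencies `pl` of the digits. If almost every `x` in the
interval `[0, ⌊β⌋ / (β - 1)]` has an expansion in base `β` of frequency `(pu, pl)`, then almost
every `x` has a continuum of such expansions.

Sketch of the proof. Write `I` for the interval and `T_w` for the expanding affine map associated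
to a word `w`.

* By the density theorem of Lebesgue, a subset of `I` which is mapped into itself by all the maps
  `T_w` (where they take values in `I`) is null or conull. In particular the set of the points
  admitting at most one word of length `n` has measure tending to zero.
* If almost every point has an expansion of the given frequency, then for every tolerance all
  points outside of a set of small measure admit words of length `n` (for every large `n`) whose
  beginnings have frequencies close to the prescribed ones, uniformly. The intervals `I_w` of such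
  words, which have the same length, can be thinned to bounded multiplicity; hence all points
  outside of a set of small measure have such a word `w` with `T_w x` outside of any given set of
  small measure.
* Thus one can build, for every point of a set of positive measure, a binary tree of longer and
  longer good words separated by much shorter branchings.
-/

set_option autoImplicit false

open MeasureTheory Set Filter Topology Cardinal

namespace Pool.Agent.Results.MP_d4a354_an.ContinuumOfExpansions

/-- The digits `0, 1, …, ⌊β⌋`. -/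
abbrev Digit (β : ℝ) : Type := Fin (⌊β⌋₊ + 1)

/-- The proportion of the digit `k` among the first `n` digits of the sequence `ε`. -/
noncomputable def freq {β : ℝ} (ε : ℕ → Digit β) (k : Digit β) (n : ℕ) : ℝ :=
  (((Finset.range n).filter fun i => ε i = k).card : ℝ) / n

/-- The interval `I_β` of all the numbers which have an expansion in base `β`. -/
noncomputable def interval (β : ℝ) : Set ℝ := Icc 0 ((⌊β⌋₊ : ℝ) / (β - 1))

/-- The set `E_β(x)` of the expansions of `x` in base `β` of frequency `(pu, pl)`: the sequences
of digits `ε 0, ε 1, …` with `x = ∑ ε i / β ^ (i + 1)` such that, for every digit `k`, the upper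
frequency of `k` is `pu k` and the lower frequency of `k` is `pl k`. -/
def E (β : ℝ) (pu pl : Digit β → ℝ) (x : ℝ) : Set (ℕ → Digit β) :=
  {ε | HasSum (fun i => ((ε i : ℕ) : ℝ) / β ^ (i + 1)) x ∧
    ∀ k, limsup (freq ε k) atTop = pu k ∧ liminf (freq ε k) atTop = pl k}

open Pool.Agent.R787.Beta

/-- the functions whose averages are the frequencies and their complements -/
noncomputable def fun' {m : ℕ} : D m × Bool → D m → ℝ
  | (k, true), d => if d = k then 1 else 0
  | (k, false), d => if d = k then 0 else 1

/-- the prescribed upper limits -/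
def lim' {m : ℕ} (pu pl : D m → ℝ) : D m × Bool → ℝ
  | (k, true) => pu k
  | (k, false) => 1 - pl k

lemma T_pre {β : ℝ} (hβ : 1 < β) {m : ℕ} (e : ℕ → D m) (x : ℝ) (n : ℕ) :
    T β (pre e n) x = β ^ n * (x - ∑ i ∈ Finset.range n, ((e i : ℕ) : ℝ) / β ^ (i + 1)) := by
  have h0 : β ≠ 0 := by linarith
  induction n with
  | zero => simp [pre]
  | succ n ih =>
    have h1 : pre e (n + 1) = pre e n ++ [e n] := by
      simp [pre, List.range_succ]
    rw [h1, T_append, T_cons, T_nil, ih, Finset.sum_range_succ]
    field_simp
    ring

lemma expansion_iff {β : ℝ} {m : ℕ} (h : Ok β m) (e : ℕ → D m) (x : ℝ) :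
    HasSum (fun i => ((e i : ℕ) : ℝ) / β ^ (i + 1)) x ↔ ∀ n, T β (pre e n) x ∈ II β m := by
  have hβ := h.one_lt
  have h0 : 0 < β := by linarith
  have hk := h.kap_eq
  have hk1 := h.kap_gt
  set s : ℕ → ℝ := fun n => ∑ i ∈ Finset.range n, ((e i : ℕ) : ℝ) / β ^ (i + 1) with hs
  have hlimk : Tendsto (fun n : ℕ => kap β m / β ^ n) atTop (𝓝 0) := by
    have h2 := (tendsto_inv_atTop_zero.comp (tendsto_pow_atTop_atTop_of_one_lt hβ)).const_mul
      (kap β m)
    rw [mul_zero] at h2
    exact h2.congr fun n => by simp [div_eq_mul_inv]
  rw [hasSum_iff_tendsto_nat_of_nonneg (fun i => by positivity)]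
  constructor
  · intro hx n
    have hmono : Monotone s := monotone_nat_of_le_succ fun n => by
      rw [hs]
      simp only [Finset.sum_range_succ]
      have : 0 ≤ ((e n : ℕ) : ℝ) / β ^ (n + 1) := by positivity
      linarith
    have hanti : Antitone fun n => s n + kap β m / β ^ n := antitone_nat_of_succ_le fun n => by
      simp only [hs, Finset.sum_range_succ]
      have h2 : ((e n : ℕ) : ℝ) ≤ m := by exact_mod_cast Nat.lt_succ_iff.1 (e n).2
      have h3 : kap β m / β ^ n = (kap β m + m) / β ^ (n + 1) := by
        rw [← hk, pow_succ]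
        field_simp
      have h4 : ((e n : ℕ) : ℝ) / β ^ (n + 1) ≤ m / β ^ (n + 1) := by gcongr
      rw [h3, add_div]
      linarith
    have h2 : s n ≤ x := hmono.ge_of_tendsto hx n
    have h3 : x ≤ s n + kap β m / β ^ n := by
      have h4 : Tendsto (fun n => s n + kap β m / β ^ n) atTop (𝓝 x) := by
        have := Tendsto.add hx hlimk
        rwa [add_zero] at this
      exact hanti.le_of_tendsto h4 n
    rw [T_pre hβ]
    have hb : 0 < β ^ n := by positivity
    refine ⟨mul_nonneg hb.le (by linarith), ?_⟩
    have h5 : x - s n ≤ kap β m / β ^ n := by linarith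
    rw [le_div_iff₀ hb] at h5
    linarith
  · intro hx
    have h2 : Tendsto (fun n => x - s n) atTop (𝓝 0) := by
      refine squeeze_zero (fun n => ?_) (fun n => ?_) hlimk
      · have h3 := (hx n).1
        rw [T_pre hβ] at h3
        exact nonneg_of_mul_nonneg_right h3 (by positivity)
      · have h3 := (hx n).2
        rw [T_pre hβ] at h3
        rw [le_div_iff₀ (by positivity)]
        linarith
    have h3 := h2.const_sub x
    rw [sub_zero] at h3
    exact h3.congr fun n => by simp [hs]

lemma S_true {m : ℕ} (e : ℕ → D m) (k : D m) (n : ℕ) :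
    S (fun' (k, true)) (pre e n) = (((Finset.range n).filter fun i => e i = k).card : ℝ) := by
  induction n with
  | zero => simp [pre]
  | succ n ih =>
    have h1 : pre e (n + 1) = pre e n ++ [e n] := by
      simp [pre, List.range_succ]
    rw [h1, S_append, ih, S_cons, S_nil, add_zero, Finset.range_add_one, Finset.filter_insert]
    by_cases hk : e n = k
    · rw [if_pos hk, Finset.card_insert_of_notMem (by simp)]
      simp [fun', hk]
    · rw [if_neg hk]
      simp [fun', hk]

lemma S_false {m : ℕ} (e : ℕ → D m) (k : D m) (n : ℕ) :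
    S (fun' (k, false)) (pre e n) =
      n - (((Finset.range n).filter fun i => e i = k).card : ℝ) := by
  induction n with
  | zero => simp [pre]
  | succ n ih =>
    have h1 : pre e (n + 1) = pre e n ++ [e n] := by
      simp [pre, List.range_succ]
    rw [h1, S_append, ih, S_cons, S_nil, add_zero, Finset.range_add_one, Finset.filter_insert]
    by_cases hk : e n = k
    · rw [if_pos hk, Finset.card_insert_of_notMem (by simp)]
      simp [fun', hk]
    · rw [if_neg hk]
      simp [fun', hk]
      ring

lemma freq_mem {β : ℝ} (e : ℕ → Digit β) (k : Digit β) (n : ℕ) : freq e k n ∈ Icc (0 : ℝ) 1 := by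
  refine ⟨by unfold freq; positivity, ?_⟩
  unfold freq
  refine div_le_one_of_le₀ ?_ (by positivity)
  have := Finset.card_filter_le (Finset.range n) fun i => e i = k
  rw [Finset.card_range] at this
  exact_mod_cast this

lemma E_eq {β : ℝ} (h : Ok β ⌊β⌋₊) (pu pl : Digit β → ℝ) (x : ℝ) :
    E β pu pl x = EE β fun' (lim' pu pl) x := by
  have bd1 : ∀ (e : ℕ → Digit β) k, IsBoundedUnder (· ≤ ·) atTop (freq e k) := fun e k =>
    isBoundedUnder_of ⟨1, fun n => (freq_mem e k n).2⟩
  have bd2 : ∀ (e : ℕ → Digit β) k, IsBoundedUnder (· ≥ ·) atTop (freq e k) := fun e k =>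
    isBoundedUnder_of ⟨0, fun n => (freq_mem e k n).1⟩
  have cb1 := fun e k => (bd2 e k).isCoboundedUnder_le
  have cb2 := fun e k => (bd1 e k).isCoboundedUnder_ge
  have hfreq : ∀ (e : ℕ → Digit β) k (n : ℕ),
      (((Finset.range n).filter fun i => e i = k).card : ℝ) = freq e k n * n := by
    intro e k n
    rcases Nat.eq_zero_or_pos n with rfl | hn
    · simp
    · have : (n : ℝ) ≠ 0 := by positivity
      rw [freq, div_mul_cancel₀ _ this]
  have hle : ∀ (e : ℕ → Digit β) k (n : ℕ) (c : ℝ), 0 < n →
      (freq e k n * n ≤ c * n ↔ freq e k n ≤ c) := by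
    intro e k n c hn
    exact mul_le_mul_iff_left₀ (by positivity)
  have hge : ∀ (e : ℕ → Digit β) k (n : ℕ) (c : ℝ), 0 < n →
      (c * n ≤ freq e k n * n ↔ c ≤ freq e k n) := by
    intro e k n c hn
    exact mul_le_mul_iff_left₀ (by positivity)
  ext e
  refine and_congr (expansion_iff h e x) ?_
  constructor
  · rintro hk ⟨k, b⟩
    cases b with
    | true =>
      obtain ⟨h1, -⟩ := hk k
      simp only [lim', S_true]
      constructor
      · intro δ hδ
        have h2 := eventually_lt_of_limsup_lt (f := atTop) (u := freq e k) (b := pu k + δ)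
          (by linarith) (bd1 e k)
        obtain ⟨N, hN⟩ := eventually_atTop.1 h2
        refine ⟨N, fun i hi => ?_⟩
        rw [hfreq]
        exact mul_le_mul_of_nonneg_right (hN i hi).le (by positivity)
      · intro δ hδ L
        have h2 := frequently_lt_of_lt_limsup (f := atTop) (u := freq e k) (b := pu k - δ)
          (cb1 e k) (by linarith)
        obtain ⟨i, hi, hi'⟩ := (frequently_atTop.1 h2) L
        refine ⟨i, hi, ?_⟩
        rw [hfreq]
        exact mul_le_mul_of_nonneg_right hi'.le (by positivity)
    | false =>
      obtain ⟨-, h1⟩ := hk k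
      simp only [lim', S_false]
      constructor
      · intro δ hδ
        have h2 := eventually_lt_of_lt_liminf (f := atTop) (u := freq e k) (b := pl k - δ)
          (by linarith) (bd2 e k)
        obtain ⟨N, hN⟩ := eventually_atTop.1 h2
        refine ⟨N, fun i hi => ?_⟩
        rw [hfreq]
        have := mul_le_mul_of_nonneg_right (hN i hi).le (Nat.cast_nonneg (α := ℝ) i)
        linarith
      · intro δ hδ L
        have h2 := frequently_lt_of_liminf_lt (f := atTop) (u := freq e k) (b := pl k + δ)
          (cb2 e k) (by linarith)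
        obtain ⟨i, hi, hi'⟩ := (frequently_atTop.1 h2) L
        refine ⟨i, hi, ?_⟩
        rw [hfreq]
        have := mul_le_mul_of_nonneg_right hi'.le (Nat.cast_nonneg (α := ℝ) i)
        linarith
  · intro hk k
    constructor
    · obtain ⟨h1, h2⟩ := hk (k, true)
      simp only [lim', S_true] at h1 h2
      refine le_antisymm ?_ ?_
      · refine le_of_forall_pos_le_add fun δ hδ => ?_
        obtain ⟨N, hN⟩ := h1 δ hδ
        refine limsup_le_of_le (cb1 e k) ?_
        refine eventually_atTop.2 ⟨N + 1, fun i hi => ?_⟩
        have := hN i (by omega)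
        rw [hfreq] at this
        exact (hle e k i _ (by omega)).1 this
      · refine le_of_forall_pos_le_add fun δ hδ => ?_
        rw [← sub_le_iff_le_add]
        refine le_limsup_of_frequently_le ?_ (bd1 e k)
        refine frequently_atTop.2 fun L => ?_
        obtain ⟨i, hi, hi'⟩ := h2 δ hδ (L + 1)
        rw [hfreq] at hi'
        exact ⟨i, by omega, (hge e k i _ (by omega)).1 hi'⟩
    · obtain ⟨h1, h2⟩ := hk (k, false)
      simp only [lim', S_false] at h1 h2
      refine le_antisymm ?_ ?_
      · refine le_of_forall_pos_le_add fun δ hδ => ?_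
        refine liminf_le_of_frequently_le ?_ (bd2 e k)
        refine frequently_atTop.2 fun L => ?_
        obtain ⟨i, hi, hi'⟩ := h2 δ hδ (L + 1)
        rw [hfreq] at hi'
        exact ⟨i, by omega, (hle e k i _ (by omega)).1 (by linarith)⟩
      · refine le_of_forall_pos_le_add fun δ hδ => ?_
        rw [← sub_le_iff_le_add]
        obtain ⟨N, hN⟩ := h1 δ hδ
        refine le_liminf_of_le (cb2 e k) ?_
        refine eventually_atTop.2 ⟨N + 1, fun i hi => ?_⟩
        have := hN i (by omega)
        rw [hfreq] at this
        exact (hge e k i _ (by omega)).1 (by linarith)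

/-- **A continuum of expansions with prescribed digit frequencies.** Let `β > 1` be a real number
which is not an integer, and let `pu k`, `pl k` in `[0, 1]` be given for every digit `k`. Then
almost every `x` in `I_β` has an expansion in base `β` of frequency `(pu, pl)` if and only if
almost every `x` in `I_β` has exactly `2 ^ ℵ₀` expansions in base `β` of frequency `(pu, pl)`. -/
theorem result (β : ℝ) (hβ : 1 < β) (_hβ' : ∀ n : ℕ, β ≠ n) (pu pl : Digit β → ℝ)
    (hpu : ∀ k, pu k ∈ Icc (0 : ℝ) 1) (hpl : ∀ k, pl k ∈ Icc (0 : ℝ) 1) :
    (∀ᵐ x ∂(volume.restrict (interval β)), (E β pu pl x).Nonempty) ↔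
      ∀ᵐ x ∂(volume.restrict (interval β)), Cardinal.mk (E β pu pl x) = 2 ^ ℵ₀ := by
  have h : Ok β ⌊β⌋₊ := by
    refine ⟨hβ, ?_, Nat.lt_floor_add_one β⟩
    rw [Nat.one_le_floor_iff]
    exact hβ.le
  constructor
  · intro hE
    have hE' : ∀ᵐ x ∂(volume.restrict (II β ⌊β⌋₊)), (EE β fun' (lim' pu pl) x).Nonempty := by
      refine hE.mono fun x hx => ?_
      rwa [E_eq h] at hx
    have hmain := h.main (f := fun') (q := lim' pu pl) ?_ ?_ ?_ ?_ hE'
    · refine hmain.mono ?_
      rintro x ⟨Φ, hΦ, hΦ'⟩
      rw [E_eq h]
      refine le_antisymm ?_ ?_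
      · calc Cardinal.mk (EE β fun' (lim' pu pl) x) ≤ Cardinal.mk (ℕ → Digit β) := mk_set_le _
          _ ≤ 2 ^ ℵ₀ := by
            rw [mk_arrow, lift_id, lift_id, mk_nat, mk_fin, two_power_aleph0,
              nat_power_aleph0 (by have := h.m_pos; omega)]
      · have h1 : Cardinal.mk (ℕ → Bool) ≤ Cardinal.mk (EE β fun' (lim' pu pl) x) :=
          mk_le_of_injective (f := fun b => (⟨Φ b, hΦ' b⟩ : EE β fun' (lim' pu pl) x))
            (fun b b' hbb => hΦ (congrArg Subtype.val hbb))
        rwa [mk_arrow, lift_id, lift_id, mk_nat, mk_bool] at h1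
    · rintro ⟨k, b⟩ d
      cases b <;> simp only [fun'] <;> split_ifs <;> norm_num
    · rintro ⟨k, b⟩ d
      cases b <;> simp only [fun'] <;> split_ifs <;> norm_num
    · rintro ⟨k, b⟩
      cases b
      · simp only [lim']
        linarith [(hpl k).2]
      · exact (hpu k).1
    · rintro ⟨k, b⟩
      cases b
      · simp only [lim']
        linarith [(hpl k).1]
      · exact (hpu k).2
  · intro hE
    refine hE.mono fun x hx => ?_
    rw [Set.nonempty_iff_ne_empty]
    intro hc
    rw [hc] at hx
    rw [mk_eq_zero (∅ : Set (ℕ → Digit β))] at hx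
    exact (power_ne_zero ℵ₀ (two_ne_zero)) hx.symm

end Pool.Agent.Results.MP_d4a354_an.ContinuumOfExpansions
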